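import Pool.Agent.H95.Ienv

set_option autoImplicit false
open Pool.Agent.H95.Ienv

theorem Pool.Agent.Results.MP_a5b52c_an.No.result :
    ∃ (X : Type) (_ : NormedAddCommGroup X) (_ : NormedSpace ℝ X), CompleteSpace X ∧
      ∃ A : Set (StrongDual ℝ X), ¬ Ienv A ⊆ closure (Ienvb A) :=
  Pool.Agent.H95.Ienv.main1
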